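import Mathlib
import Pool.Agent.Lib.MP_50ef00_gt.H65.Disc

/-!
Holonomy groups: attaching a disc (NC4c), the graph (NC4d), change of base point (NC4f).
-/

namespace Pool.Agent.Lib.MP_50ef00_gt.H32

open Pool.Agent.Lib.MP_50ef00_gt H65

/-! ### complexes -/

theorem isComplex_simplex (s : Finset ℕ) : IsComplex (simplex s) := by
  intro t ht
  rw [mem_simplex] at ht
  refine ⟨ht.2, fun u hu hne => ?_⟩
  rw [mem_simplex]
  exact ⟨hu.trans ht.1, hne⟩

theorem isComplex_union {K L : Finset (Finset ℕ)} (hK : IsComplex K) (hL : IsComplex L) :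
    IsComplex (K ∪ L) := by
  intro t ht
  rcases Finset.mem_union.mp ht with h | h
  · exact ⟨(hK t h).1, fun u hu hne => Finset.mem_union_left _ ((hK t h).2 u hu hne)⟩
  · exact ⟨(hL t h).1, fun u hu hne => Finset.mem_union_right _ ((hL t h).2 u hu hne)⟩

theorem isComplex_biUnion {ι : Type*} (s : Finset ι) (f : ι → Finset (Finset ℕ))
    (h : ∀ i ∈ s, IsComplex (f i)) : IsComplex (s.biUnion f) := by
  intro t ht
  obtain ⟨i, hi, hti⟩ := Finset.mem_biUnion.mp ht
  refine ⟨(h i hi t hti).1, fun u hu hne => ?_⟩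
  exact Finset.mem_biUnion.mpr ⟨i, hi, (h i hi t hti).2 u hu hne⟩

theorem isComplex_graph : IsComplex graph :=
  isComplex_biUnion _ _ fun _ _ => isComplex_union (isComplex_union (isComplex_simplex _)
    (isComplex_simplex _)) (isComplex_simplex _)

theorem isComplex_disc (n : ℕ) (p : ℕ → ℕ) (N : ℕ) : IsComplex (disc n p N) :=
  isComplex_biUnion _ _ fun _ _ => isComplex_union (isComplex_union (isComplex_simplex _)
    (isComplex_simplex _)) (isComplex_simplex _)

theorem isComplex_attach {K : Finset (Finset ℕ)} (hK : IsComplex K) (w : Word) (N : ℕ) :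
    IsComplex (attach K w N) := isComplex_union hK (isComplex_disc _ _ _)

theorem isComplex_Xcx : IsComplex Xcx :=
  isComplex_attach (isComplex_attach (isComplex_attach isComplex_graph _ _) _ _) _ _

theorem isComplex_Kk (k : ℕ) : IsComplex (Kk k) := isComplex_attach isComplex_Xcx _ _

/-! ### holonomy -/

section
variable {Γ : Type*} [Group Γ] {K L : Finset (Finset ℕ)} {B : ℕ → ℕ → Γ} {u v w : ℕ} {g : Γ}

theorem hol_symm (hK : IsComplex K) (hB : IsCocycle K B) (h : Hol K B u v g) :
    Hol K B v u g⁻¹ := by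
  induction h with
  | refl hv => simpa using Hol.refl (A := B) _ hv
  | @step v w g h hvw ih =>
    have hwv : ({w, v} : Finset ℕ) ∈ K := by rwa [Finset.pair_comm]
    have h1 := hol_trans (hol_edge hK hwv) ih
    have h2 : B w v = (B v w)⁻¹ := eq_inv_of_mul_eq_one_left (cocycle_inv hK hB hwv)
    rwa [h2, ← mul_inv_rev] at h1

/-- simplices with more than two vertices do not matter -/
theorem hol_erase {t : Finset ℕ} (ht : 3 ≤ t.card) (h : Hol K B u v g) :
    Hol (K.erase t) B u v g := by
  induction h with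
  | refl hv =>
    refine Hol.refl _ (Finset.mem_erase.mpr ⟨?_, hv⟩)
    rintro rfl
    rw [Finset.card_singleton] at ht; omega
  | step _ hvw ih =>
    refine Hol.step ih (Finset.mem_erase.mpr ⟨?_, hvw⟩)
    rintro rfl
    have := ht.trans Finset.card_le_two
    omega

theorem sub_of_collapses (h : Relation.ReflTransGen CollapseStep K L) : L ⊆ K := by
  induction h with
  | refl => exact Finset.Subset.refl _
  | tail _ h ih =>
    obtain ⟨s, t, _, _, _, _, _, rfl⟩ := h.2.2
    exact ((Finset.erase_subset _ _).trans (Finset.erase_subset _ _)).trans ih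

theorem hol_collapses (h : Relation.ReflTransGen CollapseStep K L) (hB : IsCocycle K B)
    (hu : {u} ∈ L) (hv : {v} ∈ L) (hg : Hol K B u v g) : Hol L B u v g := by
  induction h using Relation.ReflTransGen.head_induction_on with
  | refl => exact hg
  | @head K K' h h' ih =>
    have hK'K : K' ⊆ K := by
      obtain ⟨s, t, _, _, _, _, _, rfl⟩ := h.2.2
      exact (Finset.erase_subset _ _).trans (Finset.erase_subset _ _)
    exact ih (cocycle_mono hK'K hB) (hol_collapse h.1 hB h.2.2 (sub_of_collapses h' hu)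
      (sub_of_collapses h' hv) hg)

end

theorem tau_card {n N : ℕ} (hn : 3 ≤ n) (hN : 0 < N) : (tau n N).card = 3 := by
  rw [Finset.card_eq_three]
  exact ⟨_, _, _, by omega, by omega, by omega, rfl⟩

/-- NC4c -/
theorem nc4c (h0 : NC0Statement) : NC4cStatement := by
  intro G _ L n N p A hp hA g
  obtain ⟨hcx, -, hcol⟩ := h0 L n N p hp
  have h00 : ({0} : Finset ℕ) ∈ L := by
    have h1 := hp.edge 0 (by have := hp.n3; omega)
    rw [hp.p0] at h1
    exact (hp.cx _ h1).2 _ (by simp) (by simp)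
  constructor
  · intro h
    have ht : 3 ≤ (tau n N).card := (tau_card hp.n3 (zero_lt_N hp)).ge
    exact hol_collapses hcol (cocycle_mono (Finset.erase_subset _ _) hA) h00 h00 (hol_erase ht h)
  · exact hol_mono Finset.subset_union_left

/-! ### the graph -/

theorem mem_graph {t : Finset ℕ} : t ∈ graph ↔ t.Nonempty ∧ ∃ g < 4,
    t ⊆ {0, 2 * g + 1} ∨ t ⊆ {2 * g + 1, 2 * g + 2} ∨ t ⊆ {2 * g + 2, 0} := by
  simp only [graph, Finset.mem_biUnion, Finset.mem_range, Finset.mem_union, mem_simplex]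
  constructor
  · rintro ⟨i, hi, (h | h) | h⟩
    · exact ⟨h.2, i, hi, Or.inl h.1⟩
    · exact ⟨h.2, i, hi, Or.inr (Or.inl h.1)⟩
    · exact ⟨h.2, i, hi, Or.inr (Or.inr h.1)⟩
  · rintro ⟨h, i, hi, h1 | h1 | h1⟩
    · exact ⟨i, hi, Or.inl (Or.inl ⟨h1, h⟩)⟩
    · exact ⟨i, hi, Or.inl (Or.inr ⟨h1, h⟩)⟩
    · exact ⟨i, hi, Or.inr ⟨h1, h⟩⟩

theorem graph_e1 {g : ℕ} (hg : g < 4) : ({0, 2 * g + 1} : Finset ℕ) ∈ graph :=
  mem_graph.mpr ⟨by simp, g, hg, Or.inl (Finset.Subset.refl _)⟩

theorem graph_e2 {g : ℕ} (hg : g < 4) : ({2 * g + 1, 2 * g + 2} : Finset ℕ) ∈ graph :=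
  mem_graph.mpr ⟨by simp, g, hg, Or.inr (Or.inl (Finset.Subset.refl _))⟩

theorem graph_e3 {g : ℕ} (hg : g < 4) : ({2 * g + 2, 0} : Finset ℕ) ∈ graph :=
  mem_graph.mpr ⟨by simp, g, hg, Or.inr (Or.inr (Finset.Subset.refl _))⟩

theorem graph_zero : ({0} : Finset ℕ) ∈ graph :=
  (isComplex_graph _ (graph_e1 (g := 0) (by omega))).2 _ (by simp) (by simp)

/-- NC4d -/
theorem nc4d : NC4dStatement := by
  intro G _ A hA g
  have hinv : ∀ {u v : ℕ}, ({u, v} : Finset ℕ) ∈ graph → A u v * A v u = 1 :=
    fun h => cocycle_inv isComplex_graph hA h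
  have h00 : A 0 0 = 1 := hA.self graph_zero
  have hself : ∀ {u v : ℕ}, ({u, v} : Finset ℕ) ∈ graph → A u u = 1 := by
    intro u v h
    apply hA.self
    exact (isComplex_graph _ h).2 _ (by simp) (by simp)
  constructor
  · -- follow the path, closing it up by the edge to `0`
    have key : ∀ {v : ℕ} {g : G}, Hol graph A 0 v g →
        g * A v 0 ∈ Subgroup.closure (Set.range (lhol A)) := by
      intro v g h
      induction h with
      | refl hv => rw [h00, mul_one]; exact Subgroup.one_mem _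
      | @step v w g h hvw ih' =>
        obtain ⟨-, j, hj, hsub⟩ := mem_graph.mp hvw
        have hl : lhol A ⟨j, hj⟩ = A 0 (2 * j + 1) * A (2 * j + 1) (2 * j + 2)
          * A (2 * j + 2) 0 := rfl
        have hmem : lhol A ⟨j, hj⟩ ∈ Subgroup.closure (Set.range (lhol A)) :=
          Subgroup.subset_closure ⟨_, rfl⟩
        have hv : v = w ∨ (v = 0 ∧ w = 2 * j + 1) ∨ (v = 2 * j + 1 ∧ w = 0) ∨
            (v = 2 * j + 1 ∧ w = 2 * j + 2) ∨ (v = 2 * j + 2 ∧ w = 2 * j + 1) ∨
            (v = 2 * j + 2 ∧ w = 0) ∨ (v = 0 ∧ w = 2 * j + 2) := by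
          rcases hsub with h | h | h
          · have h1 := h (show v ∈ ({v, w} : Finset ℕ) by simp)
            have h2 := h (show w ∈ ({v, w} : Finset ℕ) by simp)
            simp only [Finset.mem_insert, Finset.mem_singleton] at h1 h2
            omega
          · have h1 := h (show v ∈ ({v, w} : Finset ℕ) by simp)
            have h2 := h (show w ∈ ({v, w} : Finset ℕ) by simp)
            simp only [Finset.mem_insert, Finset.mem_singleton] at h1 h2
            omega
          · have h1 := h (show v ∈ ({v, w} : Finset ℕ) by simp)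
            have h2 := h (show w ∈ ({v, w} : Finset ℕ) by simp)
            simp only [Finset.mem_insert, Finset.mem_singleton] at h1 h2
            omega
        rcases hv with rfl | ⟨rfl, rfl⟩ | ⟨rfl, rfl⟩ | ⟨rfl, rfl⟩ | ⟨rfl, rfl⟩ | ⟨rfl, rfl⟩ |
          ⟨rfl, rfl⟩
        · rw [hself hvw, mul_one]; exact ih'
        · rw [mul_assoc, hinv hvw]; rwa [h00] at ih'
        · rw [h00, mul_one]; exact ih'
        · have e : g * A (2 * j + 1) (2 * j + 2) * A (2 * j + 2) 0
              = (g * A (2 * j + 1) 0) * lhol A ⟨j, hj⟩ := by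
            have e1 : A (2 * j + 1) 0 * A 0 (2 * j + 1) = 1 :=
              hinv (by rw [Finset.pair_comm]; exact graph_e1 hj)
            rw [hl]
            calc g * A (2 * j + 1) (2 * j + 2) * A (2 * j + 2) 0
                = g * 1 * A (2 * j + 1) (2 * j + 2) * A (2 * j + 2) 0 := by rw [mul_one]
              _ = g * (A (2 * j + 1) 0 * A 0 (2 * j + 1)) * A (2 * j + 1) (2 * j + 2)
                  * A (2 * j + 2) 0 := by rw [e1]
              _ = _ := by simp only [mul_assoc]
          rw [e]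
          exact Subgroup.mul_mem _ ih' hmem
        · have e : g * A (2 * j + 2) (2 * j + 1) * A (2 * j + 1) 0
              = (g * A (2 * j + 2) 0) * (lhol A ⟨j, hj⟩)⁻¹ := by
            have e1 : A 0 (2 * j + 1) * A (2 * j + 1) 0 = 1 := hinv (graph_e1 hj)
            have e2 : A (2 * j + 1) (2 * j + 2) * A (2 * j + 2) (2 * j + 1) = 1 :=
              hinv (graph_e2 hj)
            have e1' : (A 0 (2 * j + 1))⁻¹ = A (2 * j + 1) 0 := inv_eq_of_mul_eq_one_right e1
            have e2' : (A (2 * j + 1) (2 * j + 2))⁻¹ = A (2 * j + 2) (2 * j + 1) :=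
              inv_eq_of_mul_eq_one_right e2
            rw [hl, mul_inv_rev, mul_inv_rev, e1', e2']
            group
          rw [e]
          exact Subgroup.mul_mem _ ih' (Subgroup.inv_mem _ hmem)
        · rw [h00, mul_one]; exact ih'
        · rw [mul_assoc, hinv hvw]; rwa [h00] at ih'
    intro h
    have := key h
    rwa [h00, mul_one] at this
  · intro h
    induction h using Subgroup.closure_induction with
    | mem x hx =>
      obtain ⟨j, rfl⟩ := hx
      exact Hol.step (Hol.step (hol_edge isComplex_graph (graph_e1 j.2)) (graph_e2 j.2))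
        (graph_e3 j.2)
    | one => exact Hol.refl 0 graph_zero
    | mul x y _ _ hx hy => exact hol_trans hx hy
    | inv x _ hx => exact hol_symm isComplex_graph hA hx

/-! ### change of base point -/

/-- `0` is connected to all vertices of `L` in `K` -/
def Conn {Γ : Type*} [Group Γ] (K L : Finset (Finset ℕ)) (B : ℕ → ℕ → Γ) : Prop :=
  ∀ v : ℕ, {v} ∈ L → ∃ g, Hol K B 0 v g

section
variable {Γ : Type*} [Group Γ] {K L : Finset (Finset ℕ)} {B : ℕ → ℕ → Γ}

theorem conn_graph (hK : IsComplex K) (h : graph ⊆ K) : Conn K graph B := by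
  intro v hv
  obtain ⟨-, j, hj, hsub⟩ := mem_graph.mp hv
  have hv : v = 0 ∨ v = 2 * j + 1 ∨ v = 2 * j + 2 := by
    rcases hsub with h | h | h
    · have h1 := h (show v ∈ ({v} : Finset ℕ) by simp)
      simp only [Finset.mem_insert, Finset.mem_singleton] at h1
      omega
    · have h1 := h (show v ∈ ({v} : Finset ℕ) by simp)
      simp only [Finset.mem_insert, Finset.mem_singleton] at h1
      omega
    · have h1 := h (show v ∈ ({v} : Finset ℕ) by simp)
      simp only [Finset.mem_insert, Finset.mem_singleton] at h1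
      omega
  rcases hv with rfl | rfl | rfl
  · exact ⟨_, Hol.refl _ (h graph_zero)⟩
  · exact ⟨_, hol_edge hK (h (graph_e1 hj))⟩
  · exact ⟨_, hol_edge hK (by rw [Finset.pair_comm]; exact h (graph_e3 hj))⟩

theorem conn_disc (hK : IsComplex K) {n N : ℕ} {p : ℕ → ℕ} (h : disc n p N ⊆ K) :
    Conn K (disc n p N) B := by
  intro v hv
  obtain ⟨-, i, hi, hsub⟩ := mem_disc.mp hv
  have hN : ∃ g, Hol K B 0 N g := by
    refine ⟨_, hol_edge hK (h ?_)⟩
    rw [mem_disc]
    refine ⟨by simp, 0, by omega, Or.inr (Or.inr ?_)⟩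
    intro x hx
    rw [ring_zero]
    simp only [Finset.mem_insert, Finset.mem_singleton] at hx ⊢
    tauto
  have hr : ∀ j, j = i ∨ j = i + 1 → ∃ g, Hol K B 0 (ring n N j) g := by
    intro j hj
    obtain ⟨g, hg⟩ := hN
    refine ⟨_, Hol.step hg (h ?_)⟩
    rw [mem_disc]
    refine ⟨by simp, i, hi, Or.inr (Or.inr ?_)⟩
    intro x hx
    simp only [Finset.mem_insert, Finset.mem_singleton] at hx ⊢
    rcases hj with rfl | rfl <;> tauto
  rcases hsub with h1 | h1 | h1
  · obtain ⟨g, hg⟩ := hr i (Or.inl rfl)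
    refine ⟨_, Hol.step hg (h ?_)⟩
    rw [mem_disc]
    refine ⟨by simp, i, hi, Or.inl ?_⟩
    intro x hx
    simp only [Finset.mem_insert, Finset.mem_singleton] at hx
    rcases hx with rfl | rfl
    · simp
    · exact h1 (by simp)
  · obtain ⟨g, hg⟩ := hr i (Or.inl rfl)
    refine ⟨_, Hol.step hg (h ?_)⟩
    rw [mem_disc]
    refine ⟨by simp, i, hi, Or.inr (Or.inl ?_)⟩
    intro x hx
    simp only [Finset.mem_insert, Finset.mem_singleton] at hx
    rcases hx with rfl | rfl
    · simp
    · exact h1 (by simp)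
  · obtain ⟨g, hg⟩ := hN
    refine ⟨_, Hol.step hg (h ?_)⟩
    rw [mem_disc]
    refine ⟨by simp, i, hi, Or.inr (Or.inr ?_)⟩
    intro x hx
    simp only [Finset.mem_insert, Finset.mem_singleton] at hx
    rcases hx with rfl | rfl
    · simp
    · exact h1 (by simp)

theorem conn_attach (hK : IsComplex K) {w : Word} {N : ℕ} (h : attach L w N ⊆ K)
    (hL : Conn K L B) : Conn K (attach L w N) B := by
  intro v hv
  rcases Finset.mem_union.mp hv with h1 | h1
  · exact hL v h1
  · exact conn_disc hK (Finset.subset_union_right.trans h) v h1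

theorem conn_Kk (k : ℕ) : Conn (Kk k) (Kk k) B := by
  have hK := isComplex_Kk k
  have h4 : Kk k ⊆ Kk k := Finset.Subset.refl _
  have h3 : Xcx ⊆ Kk k := Finset.subset_union_left
  have h2 : attach (attach graph R1 100) R2 200 ⊆ Kk k := Finset.subset_union_left.trans h3
  have h1 : attach graph R1 100 ⊆ Kk k := Finset.subset_union_left.trans h2
  have h0 : graph ⊆ Kk k := Finset.subset_union_left.trans h1
  exact conn_attach hK h4 (conn_attach hK h3 (conn_attach hK h2 (conn_attach hK h1
    (conn_graph hK h0))))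

end

/-- `0` is a vertex of `Kk k` -/
theorem zero_mem_Kk (k : ℕ) : {0} ∈ Kk k := by
  have h3 : Xcx ⊆ Kk k := Finset.subset_union_left
  have h2 : attach (attach graph R1 100) R2 200 ⊆ Kk k := Finset.subset_union_left.trans h3
  have h1 : attach graph R1 100 ⊆ Kk k := Finset.subset_union_left.trans h2
  exact (Finset.subset_union_left.trans h1) graph_zero

/-- NC4f -/
theorem nc4f : NC4fStatement := by
  intro k A hA
  constructor
  · rintro ⟨v, hv, h⟩ p
    obtain ⟨g0, hg0⟩ := conn_Kk (B := A) k v hv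
    obtain ⟨g, hg, hgp⟩ := h (g0.p⁻¹ * p * g0.p)
    refine ⟨g0 * g * g0⁻¹, hol_trans (hol_trans hg0 hg) (hol_symm (isComplex_Kk k) hA hg0), ?_⟩
    rw [PZ.mul_p, PZ.mul_p, PZ.inv_p, hgp]
    group
  · intro h
    exact ⟨0, zero_mem_Kk k, h⟩

end Pool.Agent.Lib.MP_50ef00_gt.H32
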